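import Pool.Agent.Helper67.BT.Stmts

set_option autoImplicit false

open Finset MeasureTheory

namespace Pool.Agent.Helper67.BT

theorem dvb_inner {n k : ℕ} (c : Cfg n k) (i : Fin n) (v : E k) :
    |(inner ℝ (c.e i) v : ℝ)| ≤ ‖v‖ := by
  have h := abs_real_inner_le_norm (c.e i) v
  rw [c.e1 i, one_mul] at h
  exact h

theorem st_DVB (h1 : ST_PT) : ST_DVB := by
  intro n k c p v x hp hp3
  have hx : 0 ≤ ‖x‖ := norm_nonneg x
  have hv : 0 ≤ ‖v‖ := norm_nonneg v
  have hk : (0 : ℝ) ≤ (k : ℝ) := Nat.cast_nonneg k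
  constructor
  · have hb : ∀ i, |ps p (c.z i x) * inner ℝ (c.e i) v| ≤ (1 + ‖x‖) ^ 2 * ‖v‖ := by
      intro i
      have hz := z_le c i x
      have hz0 := abs_nonneg (c.z i x)
      have h6 := (h1 p (c.z i x) 0 0 hp hp3).2.2.2.2.2.1
      rw [abs_mul]
      have h7 : |ps p (c.z i x)| ≤ (1 + ‖x‖) ^ 2 := by
        refine h6.trans ?_
        exact pow_le_pow_left₀ (by linarith) (by linarith) 2
      exact mul_le_mul h7 (dvb_inner c i v) (abs_nonneg _) (by positivity)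
    have hs := abs_sum_le_of c (fun i => ps p (c.z i x) * inner ℝ (c.e i) v) _ hb
    have he : dV c p v x = p * ∑ i, c.s i * (ps p (c.z i x) * inner ℝ (c.e i) v) := by
      unfold dV
      congr 1
      exact Finset.sum_congr rfl fun i _ => mul_assoc _ _ _
    rw [he, abs_mul, abs_of_pos (by linarith : (0 : ℝ) < p)]
    calc p * |∑ i, c.s i * (ps p (c.z i x) * inner ℝ (c.e i) v)|
        ≤ 3 * (k * ((1 + ‖x‖) ^ 2 * ‖v‖)) :=
          mul_le_mul hp3 hs (abs_nonneg _) (by norm_num)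
      _ = 3 * k * ‖v‖ * (1 + ‖x‖) ^ 2 := by ring
  · have hb : ∀ i, |(|c.z i x| ^ (p - 2) * inner ℝ (c.e i) v) * inner ℝ (c.e i) v| ≤
        (1 + ‖x‖) * ‖v‖ * ‖v‖ := by
      intro i
      have hz := z_le c i x
      have h7 := (h1 p (c.z i x) 0 0 hp hp3).2.2.2.2.2.2
      have h8 : 0 ≤ |c.z i x| ^ (p - 2) := Real.rpow_nonneg (abs_nonneg _) _
      rw [abs_mul, abs_mul, abs_of_nonneg h8]
      have h9 : |c.z i x| ^ (p - 2) ≤ 1 + ‖x‖ := by linarith
      have hi := dvb_inner c i v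
      have h10 : |c.z i x| ^ (p - 2) * |(inner ℝ (c.e i) v : ℝ)| ≤ (1 + ‖x‖) * ‖v‖ :=
        mul_le_mul h9 hi (abs_nonneg _) (by positivity)
      exact mul_le_mul h10 hi (abs_nonneg _) (by positivity)
    have hs := abs_sum_le_of c
      (fun i => (|c.z i x| ^ (p - 2) * inner ℝ (c.e i) v) * inner ℝ (c.e i) v) _ hb
    have he : ddV c p v v x = p * (p - 1) *
        ∑ i, c.s i * ((|c.z i x| ^ (p - 2) * inner ℝ (c.e i) v) * inner ℝ (c.e i) v) := by
      unfold ddV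
      congr 1
      exact Finset.sum_congr rfl fun i _ => by ring
    have hpp : 0 ≤ p * (p - 1) := mul_nonneg (by linarith) (by linarith)
    have hp6 : p * (p - 1) ≤ 6 := by nlinarith
    rw [he, abs_mul, abs_of_nonneg hpp]
    calc p * (p - 1) *
          |∑ i, c.s i * ((|c.z i x| ^ (p - 2) * inner ℝ (c.e i) v) * inner ℝ (c.e i) v)|
        ≤ 6 * (k * ((1 + ‖x‖) * ‖v‖ * ‖v‖)) :=
          mul_le_mul hp6 hs (abs_nonneg _) (by norm_num)
      _ = 6 * k * ‖v‖ ^ 2 * (1 + ‖x‖) := by ring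

end Pool.Agent.Helper67.BT
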